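import Mathlib
import Pool.Agent.H691R3.PrimeSum

/-!
# Families of forms on `GL(2)`: Rankin-Selberg theory and exceptions to the Ramanujan bound
-/

set_option autoImplicit false
set_option linter.unusedSectionVars false

namespace Pool.Agent.V8H25.RP

open NumberField IsDedekindDomain Filter Topology

variable {K : Type} [Field K] [NumberField K]

/-- the number of elements of the residue field of `v` -/
noncomputable def nv (v : HeightOneSpectrum (𝓞 K)) : ℝ := (Ideal.absNorm v.asIdeal : ℝ)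

open Classical in
/-- The set `A` of primes has upper Dirichlet density at most `δ`: for `ε > 0` and all `s > 1` close to
`1` one has `∑_{v ∈ A} Nv^{-s} ≤ (δ + ε) log (1 / (s - 1))`. -/
def UpperDensityLE (A : Set (HeightOneSpectrum (𝓞 K))) (δ : ℝ) : Prop :=
  ∀ ε > 0, ∀ᶠ s in 𝓝[>] (1 : ℝ),
    ∑' v : HeightOneSpectrum (𝓞 K), (if v ∈ A then nv v ^ (-s) else 0) ≤
      (δ + ε) * Real.log (1 / (s - 1))

/-- `|θ(T_v)|² / Nv - 1`, the trace of the Satake parameter of `Ad(π)` at `v`. -/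
noncomputable def ad (θ : HeightOneSpectrum (𝓞 K) → ℂ) (v : HeightOneSpectrum (𝓞 K)) : ℝ :=
  ‖θ v‖ ^ 2 / nv v - 1

/-- The trace of the Satake parameter of the fourth symmetric power `A⁴(π) = Sym⁴(π) ⊗ ω⁻²` at `v`:
`Ad ⊗ Ad = 1 + Ad + A⁴`. -/
noncomputable def a4 (θ : HeightOneSpectrum (𝓞 K) → ℂ) (v : HeightOneSpectrum (𝓞 K)) : ℝ :=
  ad θ v ^ 2 - ad θ v - 1

/-- The trace at `v` of the isobaric sum `Π` of `c` times the trivial representation, `α_i` times `Ad(π_i)`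
and `β_i` times `A⁴(π_i)`, `i ∈ t`. -/
noncomputable def trace {ι : Type} (θ : ι → HeightOneSpectrum (𝓞 K) → ℂ) (t : Finset ι) (c : ℕ)
    (α β : ι → ℕ) (v : HeightOneSpectrum (𝓞 K)) : ℝ :=
  c + ∑ i ∈ t, (α i * ad (θ i) v + β i * a4 (θ i) v)

/-- **Rankin-Selberg theory**, first part, for the representations `Π` above: the L-function of `Π × Π` has a
pole of order `c² + ∑ (α_i² + β_i²)` at `s = 1`, and the coefficients of its logarithm are not negative.
Hence the sums of terms `(tr Π_v)² Nv^{-s}` are at most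
`(c² + ∑ (α_i² + β_i²)) log (1 / (s - 1)) + C`. Second part: the same for
`Π = (c + α Ad(π_i)) ⊗ (c' + α' Ad(π_j))`, `i ≠ j`; the L-function of `Π × Π` is the product of the
Rankin-Selberg L-functions of the constituents of `(c² + α²) + (2 c α + α²) Ad(π_i) + α² A⁴(π_i)` with
those of the corresponding sum for `j`, and its pole has the order `(c² + α²) (c'² + α'²)`. -/
structure RankinSelberg {ι : Type} (θ : ι → HeightOneSpectrum (𝓞 K) → ℂ) : Prop where
  sums : ∀ (t : Finset ι) (c : ℕ) (α β : ι → ℕ), ∃ C : ℝ, ∀ s : ℝ, 1 < s → s < 2 →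
    ∀ T : Finset (HeightOneSpectrum (𝓞 K)),
      ∑ v ∈ T, trace θ t c α β v ^ 2 * nv v ^ (-s) ≤
        ((c : ℝ) ^ 2 + ∑ i ∈ t, ((α i : ℝ) ^ 2 + (β i : ℝ) ^ 2)) * Real.log (1 / (s - 1)) + C
  pairs : ∀ i j : ι, i ≠ j → ∀ c α c' α' : ℕ, ∃ C : ℝ, ∀ s : ℝ, 1 < s → s < 2 →
    ∀ T : Finset (HeightOneSpectrum (𝓞 K)),
      ∑ v ∈ T, ((c + α * ad (θ i) v) * (c' + α' * ad (θ j) v)) ^ 2 * nv v ^ (-s) ≤
        (((c : ℝ) ^ 2 + (α : ℝ) ^ 2) * ((c' : ℝ) ^ 2 + (α' : ℝ) ^ 2)) * Real.log (1 / (s - 1)) + C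

/-- `v` is an exception of size `l` for `θ`: `|θ(T_v)| > l (Nv)^{1/2}` -/
def Exceeds (l : ℝ) (θ : HeightOneSpectrum (𝓞 K) → ℂ) (v : HeightOneSpectrum (𝓞 K)) : Prop :=
  l * Real.sqrt (nv v) < ‖θ v‖

lemma nv_pos (v : HeightOneSpectrum (𝓞 K)) : 0 < nv v := by
  have h : 2 ≤ Ideal.absNorm v.asIdeal := Pool.Agent.H691R3.two_le_nm v
  unfold nv
  have : 0 < Ideal.absNorm v.asIdeal := by omega
  exact_mod_cast this

lemma w_pos (v : HeightOneSpectrum (𝓞 K)) (s : ℝ) : 0 < nv v ^ (-s) := Real.rpow_pos_of_pos (nv_pos v) _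

lemma log_tendsto : Tendsto (fun s : ℝ => Real.log (1 / (s - 1))) (𝓝[>] 1) atTop := by
  have h1 : Tendsto (fun s : ℝ => s - 1) (𝓝[>] 1) (𝓝[>] 0) := by
    refine tendsto_nhdsWithin_iff.2 ⟨?_, ?_⟩
    · have : Tendsto (fun s : ℝ => s - 1) (𝓝 1) (𝓝 (1 - 1)) := tendsto_id.sub_const 1
      rw [sub_self] at this
      exact this.mono_left nhdsWithin_le_nhds
    · filter_upwards [self_mem_nhdsWithin] with s hs
      have : (1 : ℝ) < s := hs
      show (0 : ℝ) < s - 1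
      linarith
  have h2 := (tendsto_inv_nhdsGT_zero (𝕜 := ℝ)).comp h1
  have h3 := Real.tendsto_log_atTop.comp h2
  refine h3.congr fun s => ?_
  simp

lemma near_two : ∀ᶠ s : ℝ in 𝓝[>] 1, s < 2 :=
  mem_nhdsWithin_of_mem_nhds (gt_mem_nhds (by norm_num))

lemma UpperDensityLE.mono {A : Set (HeightOneSpectrum (𝓞 K))} {δ δ' : ℝ} (h : UpperDensityLE A δ)
    (hd : δ ≤ δ') : UpperDensityLE A δ' := by
  intro ε hε
  filter_upwards [h ε hε, log_tendsto.eventually_gt_atTop 0] with s hs h0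
  nlinarith

/-- the property is closed in `δ` -/
lemma UpperDensityLE.of_forall {A : Set (HeightOneSpectrum (𝓞 K))} {δ : ℝ}
    (h : ∀ η > 0, UpperDensityLE A (δ + η)) : UpperDensityLE A δ := by
  intro ε hε
  filter_upwards [h (ε / 2) (by positivity) (ε / 2) (by positivity)] with s hs
  have e : δ + ε / 2 + ε / 2 = δ + ε := by ring
  rw [e] at hs
  exact hs

variable {ι : Type} {θ : ι → HeightOneSpectrum (𝓞 K) → ℂ}

/-- Markov's inequality -/
theorem markov {Q : HeightOneSpectrum (𝓞 K) → ℝ} {n C : ℝ}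
    (hC : ∀ s : ℝ, 1 < s → s < 2 → ∀ T : Finset (HeightOneSpectrum (𝓞 K)),
      ∑ v ∈ T, Q v ^ 2 * nv v ^ (-s) ≤ n * Real.log (1 / (s - 1)) + C)
    {A : Set (HeightOneSpectrum (𝓞 K))} {S : ℝ} (hS : 0 < S) (hA : ∀ v ∈ A, S ≤ |Q v|) :
    UpperDensityLE A (n / S ^ 2) := by
  classical
  intro ε hε
  have hSS : 0 < S ^ 2 := by positivity
  filter_upwards [self_mem_nhdsWithin, near_two,
    log_tendsto.eventually_ge_atTop (C / (ε * S ^ 2))] with s hs1 hs2 hlog
  have hs1' : 1 < s := hs1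
  have hb : ∀ T : Finset (HeightOneSpectrum (𝓞 K)),
      ∑ v ∈ T, (if v ∈ A then nv v ^ (-s) else 0) ≤ (n * Real.log (1 / (s - 1)) + C) / S ^ 2 := by
    intro T
    rw [le_div_iff₀ hSS]
    have h1 := hC s hs1' hs2 T
    refine le_trans ?_ h1
    rw [Finset.sum_mul]
    refine Finset.sum_le_sum fun v _ => ?_
    by_cases hv : v ∈ A
    · rw [if_pos hv, mul_comm]
      refine mul_le_mul_of_nonneg_right ?_ (w_pos v s).le
      have h2 := pow_le_pow_left₀ hS.le (hA v hv) 2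
      rw [sq_abs] at h2
      exact h2
    · rw [if_neg hv, zero_mul]
      exact mul_nonneg (sq_nonneg _) (w_pos v s).le
  have h2 := Real.tsum_le_of_sum_le (f := fun v : HeightOneSpectrum (𝓞 K) =>
      if v ∈ A then nv v ^ (-s) else 0)
    (fun v => by
      show 0 ≤ if v ∈ A then nv v ^ (-s) else 0
      split_ifs
      · exact (w_pos v s).le
      · exact le_rfl) hb
  refine h2.trans ?_
  rw [div_le_iff₀ (by positivity)] at hlog
  rw [div_le_iff₀ hSS]
  have e : (n / S ^ 2 + ε) * Real.log (1 / (s - 1)) * S ^ 2 =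
      n * Real.log (1 / (s - 1)) + Real.log (1 / (s - 1)) * (ε * S ^ 2) := by
    field_simp
  rw [e]
  linarith

/-- **Chebyshev's inequality.** -/
theorem chebyshev (h : RankinSelberg θ) (t : Finset ι) (c α β : ℕ)
    {A : Set (HeightOneSpectrum (𝓞 K))} {S : ℝ} (hS : 0 < S)
    (hA : ∀ v ∈ A, S ≤ |(c : ℝ) + ∑ i ∈ t, (α * ad (θ i) v + β * a4 (θ i) v)|) :
    UpperDensityLE A (((c : ℝ) ^ 2 + t.card * ((α : ℝ) ^ 2 + (β : ℝ) ^ 2)) / S ^ 2) := by
  obtain ⟨C, hC⟩ := h.sums t c (fun _ => α) (fun _ => β)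
  have hsum : ∑ i ∈ t, ((α : ℝ) ^ 2 + (β : ℝ) ^ 2) = t.card * ((α : ℝ) ^ 2 + (β : ℝ) ^ 2) := by
    rw [Finset.sum_const, nsmul_eq_mul]
  rw [hsum] at hC
  exact markov hC hS hA

/-- Chebyshev's inequality with a real constant `c` -/
theorem chebyshev_real (h : RankinSelberg θ) (t : Finset ι) (α β : ℕ) {c : ℝ} (hc : 0 ≤ c)
    {A : Set (HeightOneSpectrum (𝓞 K))} {S : ℝ} (hS : 0 < S)
    (hA : ∀ v ∈ A, S ≤ c + ∑ i ∈ t, (α * ad (θ i) v + β * a4 (θ i) v)) :
    UpperDensityLE A ((c ^ 2 + t.card * ((α : ℝ) ^ 2 + (β : ℝ) ^ 2)) / S ^ 2) := by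
  set V : ℝ := t.card * ((α : ℝ) ^ 2 + (β : ℝ) ^ 2) with hV
  have hlim : Tendsto (fun n : ℕ => (((⌊c * n⌋₊ : ℝ) / n) ^ 2 + V) / (S - 1 / n) ^ 2) atTop
      (𝓝 ((c ^ 2 + V) / S ^ 2)) := by
    have h1 : Tendsto (fun n : ℕ => ((⌊c * n⌋₊ : ℝ) / n)) atTop (𝓝 c) :=
      (tendsto_nat_floor_mul_div_atTop hc).comp tendsto_natCast_atTop_atTop
    have h2 : Tendsto (fun n : ℕ => S - 1 / (n : ℝ)) atTop (𝓝 (S - 0)) :=
      tendsto_const_nhds.sub tendsto_one_div_atTop_nhds_zero_nat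
    rw [sub_zero] at h2
    exact ((h1.pow 2).add_const V).div (h2.pow 2) (by positivity)
  refine UpperDensityLE.of_forall fun η hη => ?_
  obtain ⟨m, hm⟩ := exists_nat_gt (1 / S)
  obtain ⟨n, hn, hn1⟩ := ((hlim.eventually (gt_mem_nhds
    (show (c ^ 2 + V) / S ^ 2 < (c ^ 2 + V) / S ^ 2 + η by linarith))).and
      (eventually_ge_atTop (max m 1))).exists
  have hn0 : (0 : ℝ) < n := by
    have : 1 ≤ n := le_trans (le_max_right _ _) hn1
    exact_mod_cast this
  have hnS : 1 / S < n := by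
    have : (m : ℝ) ≤ n := by exact_mod_cast le_trans (le_max_left _ _) hn1
    linarith
  rw [div_lt_iff₀ hS] at hnS
  have hfl : c * n < (⌊c * n⌋₊ : ℝ) + 1 := Nat.lt_floor_add_one _
  have h3 := chebyshev h t ⌊c * n⌋₊ (α * n) (β * n) (A := A) (S := n * S - 1) (by linarith)
    (fun v hv => by
      refine le_trans ?_ (le_abs_self _)
      have e : ∑ i ∈ t, (((α * n : ℕ) : ℝ) * ad (θ i) v + ((β * n : ℕ) : ℝ) * a4 (θ i) v) =
          n * ∑ i ∈ t, ((α : ℝ) * ad (θ i) v + (β : ℝ) * a4 (θ i) v) := by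
        rw [Finset.mul_sum]
        refine Finset.sum_congr rfl fun i _ => ?_
        push_cast
        ring
      rw [e]
      have h4 := mul_le_mul_of_nonneg_left (hA v hv) hn0.le
      rw [mul_add] at h4
      linarith)
  refine h3.mono (le_trans (le_of_eq ?_) hn.le)
  have e1 : (n * S - 1) ^ 2 = (S - 1 / n) ^ 2 * (n : ℝ) ^ 2 := by
    field_simp
  rw [e1, hV]
  push_cast
  have h5 : 0 < S - 1 / (n : ℝ) := by
    have : 1 / (n : ℝ) < S := by
      rw [div_lt_iff₀ hn0]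
      linarith
    linarith
  field_simp

/-- **The one-sided Chebyshev inequality.** -/
theorem cantelli (h : RankinSelberg θ) (t : Finset ι) (ht : t.Nonempty) (α β : ℕ)
    (hαβ : 0 < (α : ℝ) ^ 2 + (β : ℝ) ^ 2)
    {A : Set (HeightOneSpectrum (𝓞 K))} {S : ℝ} (hS : 0 < S)
    (hA : ∀ v ∈ A, S ≤ ∑ i ∈ t, (α * ad (θ i) v + β * a4 (θ i) v)) :
    UpperDensityLE A (t.card * ((α : ℝ) ^ 2 + (β : ℝ) ^ 2) /
      (t.card * ((α : ℝ) ^ 2 + (β : ℝ) ^ 2) + S ^ 2)) := by
  set V : ℝ := t.card * ((α : ℝ) ^ 2 + (β : ℝ) ^ 2) with hV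
  have hVpos : 0 < V := by
    have : (0 : ℝ) < t.card := by exact_mod_cast ht.card_pos
    positivity
  have h2 := chebyshev_real h t α β (c := V / S) (by positivity) (A := A) (S := V / S + S)
    (by positivity) (fun v hv => by
      have := hA v hv
      linarith)
  refine h2.mono (le_of_eq ?_)
  rw [← hV]
  field_simp

/-! ### The inequalities -/

lemma lower (y : ℝ) : -(10 / 3) ≤ 5 * y + 3 * (y ^ 2 - y - 1) := by
  nlinarith [sq_nonneg (3 * y + 1)]

lemma large {α β : ℝ} (hα : 0 ≤ α) (hβ : 0 ≤ β) {u y : ℝ} (hu : 1 ≤ u) (hy : u ≤ y) :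
    α * u + β * (u ^ 2 - u - 1) ≤ α * y + β * (y ^ 2 - y - 1) := by
  have h1 : α * u ≤ α * y := mul_le_mul_of_nonneg_left hy hα
  have h2 : u ^ 2 - u - 1 ≤ y ^ 2 - y - 1 := by nlinarith
  have h3 := mul_le_mul_of_nonneg_left h2 hβ
  linarith

lemma ad_large {l : ℝ} (hl : 0 ≤ l) {θ : HeightOneSpectrum (𝓞 K) → ℂ}
    {v : HeightOneSpectrum (𝓞 K)} (h : Exceeds l θ v) : l ^ 2 - 1 ≤ ad θ v := by
  unfold Exceeds at h
  unfold ad
  have hv := nv_pos v
  have h1 : (l * Real.sqrt (nv v)) ^ 2 ≤ ‖θ v‖ ^ 2 := pow_le_pow_left₀ (by positivity) h.le 2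
  rw [mul_pow, Real.sq_sqrt hv.le] at h1
  have h2 : l ^ 2 ≤ ‖θ v‖ ^ 2 / nv v := by
    rw [le_div_iff₀ hv]
    exact h1
  linarith

/-- All forms of a finite set have an exception of size `l ≥ 2` at `v`. -/
theorem all_exceed (h : RankinSelberg θ) (t : Finset ι) {l : ℝ} (hl : 2 ≤ l) :
    UpperDensityLE {v | ∀ i ∈ t, Exceeds l (θ i) v}
      (1 / (1 + t.card * ((l ^ 2 - 1) ^ 2 + (l ^ 4 - 3 * l ^ 2 + 1) ^ 2))) := by
  set u : ℝ := l ^ 2 - 1 with hu
  have hl4 : 4 ≤ l ^ 2 := by nlinarith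
  have hu3 : 3 ≤ u := by linarith
  set b : ℝ := u ^ 2 - u - 1 with hb
  have hb5 : 5 ≤ b := by nlinarith
  have e1 : l ^ 4 - 3 * l ^ 2 + 1 = b := by rw [hb, hu]; ring
  rw [e1]
  set r : ℝ := (t.card : ℝ) with hr
  have hr0 : 0 ≤ r := by positivity
  set D : ℝ := u ^ 2 + b ^ 2 with hD
  have hD0 : 0 < D := by positivity
  -- the approximations
  have hlim : Tendsto (fun n : ℕ => (1 + r * (((⌊u * n⌋₊ : ℝ) / n) ^ 2 + ((⌊b * n⌋₊ : ℝ) / n) ^ 2)) /
      (1 + r * (((⌊u * n⌋₊ : ℝ) / n) * u + ((⌊b * n⌋₊ : ℝ) / n) * b)) ^ 2) atTop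
      (𝓝 ((1 + r * (u ^ 2 + b ^ 2)) / (1 + r * (u * u + b * b)) ^ 2)) := by
    have h1 : Tendsto (fun n : ℕ => ((⌊u * n⌋₊ : ℝ) / n)) atTop (𝓝 u) :=
      (tendsto_nat_floor_mul_div_atTop (by linarith : 0 ≤ u)).comp tendsto_natCast_atTop_atTop
    have h2 : Tendsto (fun n : ℕ => ((⌊b * n⌋₊ : ℝ) / n)) atTop (𝓝 b) :=
      (tendsto_nat_floor_mul_div_atTop (by linarith : 0 ≤ b)).comp tendsto_natCast_atTop_atTop
    have hne : (1 + r * (u * u + b * b)) ^ 2 ≠ 0 := by positivity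
    exact ((((h1.pow 2).add (h2.pow 2)).const_mul r).const_add 1).div
      (((((h1.mul_const u).add (h2.mul_const b)).const_mul r).const_add 1).pow 2) hne
  have hval : (1 + r * (u ^ 2 + b ^ 2)) / (1 + r * (u * u + b * b)) ^ 2 = 1 / (1 + r * D) := by
    have e : u * u + b * b = D := by rw [hD]; ring
    rw [e, ← hD]
    have : 0 < 1 + r * D := by positivity
    field_simp
  rw [hval] at hlim
  refine UpperDensityLE.of_forall fun η hη => ?_
  obtain ⟨n, hn, hn1⟩ := ((hlim.eventually (gt_mem_nhds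
    (show 1 / (1 + r * D) < 1 / (1 + r * D) + η by linarith))).and (eventually_ge_atTop 1)).exists
  have hn0 : (0 : ℝ) < n := by exact_mod_cast hn1
  set α := ⌊u * n⌋₊ with hα
  set β := ⌊b * n⌋₊ with hβ
  have hSpos : 0 < (n : ℝ) + r * (α * u + β * b) := by positivity
  have h3 := chebyshev h t n α β (A := {v | ∀ i ∈ t, Exceeds l (θ i) v})
    (S := (n : ℝ) + r * (α * u + β * b)) hSpos (fun v hv => by
      refine le_trans ?_ (le_abs_self _)
      refine add_le_add le_rfl ?_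
      rw [hr, ← nsmul_eq_mul]
      refine Finset.card_nsmul_le_sum t _ _ fun i hi => ?_
      have h4 := ad_large (by linarith) (hv i hi)
      have h5 := large (α := (α : ℝ)) (β := (β : ℝ)) (by positivity) (by positivity) (u := u)
        (by linarith) h4
      unfold a4
      exact h5)
  refine h3.mono ?_
  refine le_trans (le_of_eq ?_) hn.le
  have e3 : (1 + r * (((α : ℝ) / n) * u + ((β : ℝ) / n) * b)) ^ 2 =
      ((n : ℝ) + r * (α * u + β * b)) ^ 2 / n ^ 2 := by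
    field_simp
  have e4 : (1 + r * (((α : ℝ) / n) ^ 2 + ((β : ℝ) / n) ^ 2)) =
      ((n : ℝ) ^ 2 + r * ((α : ℝ) ^ 2 + (β : ℝ) ^ 2)) / n ^ 2 := by
    field_simp
  rw [e3, e4]
  field_simp
  rw [hr]
  ring

/-- All forms of a nonempty finite set have an exception of size `l > 1` at `v`. -/
theorem all_exceed_one (h : RankinSelberg θ) (t : Finset ι) (ht : t.Nonempty) {l : ℝ} (hl : 1 < l) :
    UpperDensityLE {v | ∀ i ∈ t, Exceeds l (θ i) v} (1 / (1 + t.card * (l ^ 2 - 1) ^ 2)) := by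
  have hu : 0 < l ^ 2 - 1 := by nlinarith
  have hr : (0 : ℝ) < t.card := by exact_mod_cast ht.card_pos
  have h1 := cantelli h t ht 1 0 (by norm_num) (A := {v | ∀ i ∈ t, Exceeds l (θ i) v})
    (S := t.card * (l ^ 2 - 1)) (by positivity) (fun v hv => by
      rw [← nsmul_eq_mul]
      exact Finset.card_nsmul_le_sum t
        (fun i => (((1 : ℕ) : ℝ) * ad (θ i) v + ((0 : ℕ) : ℝ) * a4 (θ i) v)) (l ^ 2 - 1)
        fun i hi => by
          have h2 := ad_large (by linarith) (hv i hi)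
          simpa using h2)
  refine h1.mono (le_of_eq ?_)
  push_cast
  have e : (t.card : ℝ) * (1 ^ 2 + 0 ^ 2) + (t.card * (l ^ 2 - 1)) ^ 2 =
    t.card * (1 + t.card * (l ^ 2 - 1) ^ 2) := by ring
  rw [e]
  have h3 : 0 < 1 + (t.card : ℝ) * (l ^ 2 - 1) ^ 2 := by positivity
  field_simp
  ring

/-- Two forms have an exception of size `l > 1` at `v`. -/
theorem two_exceed (h : RankinSelberg θ) {i j : ι} (hij : i ≠ j) {l : ℝ} (hl : 1 < l) :
    UpperDensityLE {v | Exceeds l (θ i) v ∧ Exceeds l (θ j) v} (1 / (1 + (l ^ 2 - 1) ^ 2) ^ 2) := by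
  set u : ℝ := l ^ 2 - 1 with hu
  have hu0 : 0 < u := by nlinarith
  have hlim : Tendsto (fun n : ℕ => (1 + ((⌊u * n⌋₊ : ℝ) / n) ^ 2) ^ 2 /
      (1 + ((⌊u * n⌋₊ : ℝ) / n) * u) ^ 4) atTop (𝓝 ((1 + u ^ 2) ^ 2 / (1 + u * u) ^ 4)) := by
    have h1 : Tendsto (fun n : ℕ => ((⌊u * n⌋₊ : ℝ) / n)) atTop (𝓝 u) :=
      (tendsto_nat_floor_mul_div_atTop hu0.le).comp tendsto_natCast_atTop_atTop
    exact (((h1.pow 2).const_add 1).pow 2).div (((h1.mul_const u).const_add 1).pow 4)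
      (by positivity)
  have hval : (1 + u ^ 2) ^ 2 / (1 + u * u) ^ 4 = 1 / (1 + u ^ 2) ^ 2 := by
    have e : u * u = u ^ 2 := by ring
    rw [e]
    field_simp
  rw [hval] at hlim
  refine UpperDensityLE.of_forall fun η hη => ?_
  obtain ⟨n, hn, hn1⟩ := ((hlim.eventually (gt_mem_nhds
    (show 1 / (1 + u ^ 2) ^ 2 < 1 / (1 + u ^ 2) ^ 2 + η by linarith))).and
      (eventually_ge_atTop 1)).exists
  have hn0 : (0 : ℝ) < n := by exact_mod_cast hn1
  set α := ⌊u * n⌋₊ with hα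
  obtain ⟨C, hC⟩ := h.pairs i j hij n α n α
  have hS : 0 < (n : ℝ) + α * u := by positivity
  have h3 := markov hC (A := {v | Exceeds l (θ i) v ∧ Exceeds l (θ j) v})
    (S := ((n : ℝ) + α * u) ^ 2) (by positivity) (fun v hv => by
      refine le_trans ?_ (le_abs_self _)
      have h4 : (n : ℝ) + α * u ≤ n + α * ad (θ i) v :=
        add_le_add le_rfl (mul_le_mul_of_nonneg_left (ad_large (by linarith) hv.1) (by positivity))
      have h5 : (n : ℝ) + α * u ≤ n + α * ad (θ j) v :=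
        add_le_add le_rfl (mul_le_mul_of_nonneg_left (ad_large (by linarith) hv.2) (by positivity))
      rw [sq]
      exact mul_le_mul h4 h5 hS.le (hS.le.trans h4))
  refine h3.mono (le_trans (le_of_eq ?_) hn.le)
  have e1 : (1 + ((α : ℝ) / n) ^ 2) ^ 2 = ((n : ℝ) ^ 2 + α ^ 2) ^ 2 / n ^ 4 := by
    field_simp
  have e2 : (1 + ((α : ℝ) / n) * u) ^ 4 = ((n : ℝ) + α * u) ^ 4 / n ^ 4 := by
    field_simp
  rw [e1, e2]
  field_simp

open Classical in
/-- the sum of `5 Ad + 3 A⁴` if many forms violate the Ramanujan bound -/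
lemma sum_ge (t : Finset ι) (v : HeightOneSpectrum (𝓞 K)) :
    (10 / 3 : ℝ) * (10 * ((t.filter fun i => Exceeds 2 (θ i) v).card : ℝ) - t.card) ≤
      ∑ i ∈ t, (5 * ad (θ i) v + 3 * a4 (θ i) v) := by
  rw [← Finset.sum_filter_add_sum_filter_not t (fun i => Exceeds 2 (θ i) v)]
  have h2 : ((t.filter fun i => Exceeds 2 (θ i) v).card : ℝ) * 30 ≤
      ∑ i ∈ t.filter (fun i => Exceeds 2 (θ i) v), (5 * ad (θ i) v + 3 * a4 (θ i) v) := by
    rw [← nsmul_eq_mul]
    refine Finset.card_nsmul_le_sum _ _ _ fun i hi => ?_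
    have h3 := ad_large (by norm_num) (Finset.mem_filter.1 hi).2
    have h4 := large (α := 5) (β := 3) (by norm_num) (by norm_num) (u := 3)
      (by norm_num) (y := ad (θ i) v) (by linarith)
    unfold a4
    linarith
  have h5 : ((t.filter fun i => ¬ Exceeds 2 (θ i) v).card : ℝ) * (-(10 / 3)) ≤
      ∑ i ∈ t.filter (fun i => ¬ Exceeds 2 (θ i) v), (5 * ad (θ i) v + 3 * a4 (θ i) v) := by
    rw [← nsmul_eq_mul]
    refine Finset.card_nsmul_le_sum _ _ _ fun i hi => ?_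
    unfold a4
    exact lower (ad (θ i) v)
  have h6 : ((t.filter fun i => Exceeds 2 (θ i) v).card : ℝ) +
      ((t.filter fun i => ¬ Exceeds 2 (θ i) v).card : ℝ) = t.card := by
    have := Finset.card_filter_add_card_filter_not (s := t) (fun i => Exceeds 2 (θ i) v)
    exact_mod_cast this
  linarith

open Classical in
/-- At least the proportion `1/10 + ε` of the forms of a finite set violate the Ramanujan bound at `v`. -/
theorem share (h : RankinSelberg θ) {ε : ℝ} (hε : 0 < ε) (t : Finset ι) (ht : t.Nonempty) :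
    UpperDensityLE {v | (1 / 10 + ε) * t.card ≤ ((t.filter fun i => Exceeds 2 (θ i) v).card : ℝ)}
      (153 / (153 + 5000 * ε ^ 2 * t.card)) := by
  have hr : (0 : ℝ) < t.card := by exact_mod_cast ht.card_pos
  have h1 := cantelli h t ht 5 3 (by norm_num)
    (A := {v | (1 / 10 + ε) * t.card ≤ ((t.filter fun i => Exceeds 2 (θ i) v).card : ℝ)})
    (S := 100 / 3 * ε * t.card) (by positivity) (fun v hv => by
      have hv' : (1 / 10 + ε) * t.card ≤ ((t.filter fun i => Exceeds 2 (θ i) v).card : ℝ) := hv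
      have h8 := sum_ge (θ := θ) t v
      push_cast
      linarith)
  refine h1.mono (le_of_eq ?_)
  push_cast
  have e : (t.card : ℝ) * (5 ^ 2 + 3 ^ 2) + (100 / 3 * ε * t.card) ^ 2 =
    2 / 9 * t.card * (153 + 5000 * ε ^ 2 * t.card) := by ring
  rw [e]
  have h3 : 0 < 153 + 5000 * ε ^ 2 * (t.card : ℝ) := by positivity
  field_simp
  ring

/-- The mean value of `a_i²`. -/
theorem mean_two (h : RankinSelberg θ) (t : Finset ι) (ht : t.Nonempty) {δ : ℝ} (hδ : 0 < δ) :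
    UpperDensityLE {v | δ ≤ |(∑ i ∈ t, ad (θ i) v) / t.card|} (1 / (δ ^ 2 * t.card)) := by
  have hr : (0 : ℝ) < t.card := by exact_mod_cast ht.card_pos
  have h1 := chebyshev h t 0 1 0 (A := {v | δ ≤ |(∑ i ∈ t, ad (θ i) v) / t.card|})
    (S := δ * t.card) (by positivity) (fun v hv => by
      have hv' : δ ≤ |(∑ i ∈ t, ad (θ i) v) / t.card| := hv
      rw [abs_div, abs_of_pos hr, le_div_iff₀ hr] at hv'
      simpa using hv')
  refine h1.mono (le_of_eq ?_)
  push_cast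
  field_simp
  ring

/-- The mean value of `a_i⁴ - 3 a_i² + 1`. -/
theorem mean_four (h : RankinSelberg θ) (t : Finset ι) (ht : t.Nonempty) {δ : ℝ} (hδ : 0 < δ) :
    UpperDensityLE {v | δ ≤ |(∑ i ∈ t, a4 (θ i) v) / t.card|} (1 / (δ ^ 2 * t.card)) := by
  have hr : (0 : ℝ) < t.card := by exact_mod_cast ht.card_pos
  have h1 := chebyshev h t 0 0 1 (A := {v | δ ≤ |(∑ i ∈ t, a4 (θ i) v) / t.card|})
    (S := δ * t.card) (by positivity) (fun v hv => by
      have hv' : δ ≤ |(∑ i ∈ t, a4 (θ i) v) / t.card| := hv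
      rw [abs_div, abs_of_pos hr, le_div_iff₀ hr] at hv'
      simpa using hv')
  refine h1.mono (le_of_eq ?_)
  push_cast
  field_simp
  ring

lemma prod_le_mean_pow {ι : Type} {t : Finset ι} (ht : t.Nonempty) {z : ι → ℝ}
    (hz : ∀ i ∈ t, 0 ≤ z i) : ∏ i ∈ t, z i ≤ ((∑ i ∈ t, z i) / t.card) ^ t.card := by
  have hr : (0 : ℝ) < t.card := by exact_mod_cast ht.card_pos
  have h := Real.geom_mean_le_arith_mean t (fun _ => (1 : ℝ)) z (fun _ _ => zero_le_one)
    (by simpa using hr) hz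
  simp only [Real.rpow_one, one_mul, Finset.sum_const, nsmul_eq_mul, mul_one] at h
  have hP : 0 ≤ ∏ i ∈ t, z i := Finset.prod_nonneg hz
  calc ∏ i ∈ t, z i = ((∏ i ∈ t, z i) ^ ((t.card : ℝ)⁻¹)) ^ t.card := by
        rw [← Real.rpow_natCast, ← Real.rpow_mul hP, inv_mul_cancel₀ hr.ne', Real.rpow_one]
    _ ≤ _ := pow_le_pow_left₀ (Real.rpow_nonneg hP _) h _

/-- **The geometric mean**. -/
theorem geometric (h : RankinSelberg θ) (t : Finset ι) (ht : t.Nonempty) {δ : ℝ} (hδ : 0 < δ) :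
    UpperDensityLE {v | ((1 + δ) * nv v) ^ t.card ≤ (∏ i ∈ t, ‖θ i v‖) ^ 2}
      (1 / (1 + δ ^ 2 * t.card)) := by
  have hr : (0 : ℝ) < t.card := by exact_mod_cast ht.card_pos
  have h1 := cantelli h t ht 1 0 (by norm_num)
    (A := {v | ((1 + δ) * nv v) ^ t.card ≤ (∏ i ∈ t, ‖θ i v‖) ^ 2})
    (S := δ * t.card) (by positivity) (fun v hv => by
      have hv' : ((1 + δ) * nv v) ^ t.card ≤ (∏ i ∈ t, ‖θ i v‖) ^ 2 := hv
      have hn := nv_pos v
      have h2 : (1 + δ) ^ t.card ≤ ∏ i ∈ t, (‖θ i v‖ ^ 2 / nv v) := by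
        rw [Finset.prod_div_distrib, Finset.prod_const, Finset.prod_pow, le_div_iff₀ (by positivity),
          ← mul_pow]
        exact hv'
      have h3 : ∏ i ∈ t, (‖θ i v‖ ^ 2 / nv v) ≤
          ((∑ i ∈ t, (‖θ i v‖ ^ 2 / nv v)) / t.card) ^ t.card :=
        prod_le_mean_pow ht fun i _ => by positivity
      have h4 : 1 + δ ≤ (∑ i ∈ t, (‖θ i v‖ ^ 2 / nv v)) / t.card := by
        have h5 := h2.trans h3
        exact le_of_pow_le_pow_left₀ ht.card_pos.ne' (by positivity) h5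
      rw [le_div_iff₀ hr] at h4
      have h6 : ∑ i ∈ t, (((1 : ℕ) : ℝ) * ad (θ i) v + ((0 : ℕ) : ℝ) * a4 (θ i) v) =
          (∑ i ∈ t, (‖θ i v‖ ^ 2 / nv v)) - t.card := by
        unfold ad
        push_cast
        simp only [one_mul, zero_mul, add_zero]
        rw [Finset.sum_sub_distrib, Finset.sum_const, nsmul_eq_mul, mul_one]
      rw [h6]
      linarith)
  refine h1.mono (le_of_eq ?_)
  push_cast
  have e : (t.card : ℝ) * (1 ^ 2 + 0 ^ 2) + (δ * t.card) ^ 2 = t.card * (1 + δ ^ 2 * t.card) := by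
    ring
  rw [e]
  have h3 : 0 < 1 + δ ^ 2 * (t.card : ℝ) := by positivity
  field_simp
  ring

lemma UpperDensityLE.subset {A B : Set (HeightOneSpectrum (𝓞 K))} {δ : ℝ} (h : UpperDensityLE B δ)
    (hAB : A ⊆ B) : UpperDensityLE A δ := by
  classical
  intro ε hε
  filter_upwards [h ε hε, self_mem_nhdsWithin] with s hs hs1
  have hs1' : 1 < s := hs1
  refine le_trans ?_ hs
  have hsum : Summable fun v : HeightOneSpectrum (𝓞 K) => nv v ^ (-s) := by
    have h := Pool.Agent.H691R3.nm_summable (K := K) hs1'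
    simpa [nv, Pool.Agent.H691R3.nm] using h
  have key : ∀ C : Set (HeightOneSpectrum (𝓞 K)),
      Summable fun v => if v ∈ C then nv v ^ (-s) else 0 := by
    intro C
    refine Summable.of_nonneg_of_le (fun v => ?_) (fun v => ?_) hsum
    · split_ifs
      · exact (w_pos v s).le
      · exact le_rfl
    · split_ifs
      · exact le_rfl
      · exact (w_pos v s).le
  refine Summable.tsum_le_tsum (fun v => ?_) (by convert key A) (by convert key B)
  by_cases hv : v ∈ A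
  · simp [hv, hAB hv]
  · simp only [hv, if_false]
    split_ifs
    · exact (w_pos v s).le
    · exact le_rfl

/-- In an infinite family the primes at which all forms exceed `l (Nv)^{1/2}`, `l > 1`, have density
zero. -/
theorem infinite_all (h : RankinSelberg θ) [Infinite ι] {l : ℝ} (hl : 1 < l) :
    UpperDensityLE {v | ∀ i, Exceeds l (θ i) v} 0 := by
  have hu : 0 < (l ^ 2 - 1) ^ 2 := by
    have : 0 < l ^ 2 - 1 := by nlinarith
    positivity
  refine UpperDensityLE.of_forall fun η hη => ?_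
  obtain ⟨r, hr⟩ := exists_nat_gt (1 / η / (l ^ 2 - 1) ^ 2)
  have hr0 : 0 < r := by
    have : (0 : ℝ) < r := lt_of_le_of_lt (by positivity) hr
    exact_mod_cast this
  obtain ⟨t, ht⟩ := Infinite.exists_subset_card_eq ι r
  have htn : t.Nonempty := Finset.card_pos.1 (by omega)
  have h1 := (all_exceed_one h t htn hl).subset (A := {v | ∀ i, Exceeds l (θ i) v})
    (fun v hv i _ => hv i)
  refine h1.mono ?_
  rw [ht, zero_add]
  have hrr : (0 : ℝ) < r := by exact_mod_cast hr0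
  rw [div_lt_iff₀ hu, div_lt_iff₀ hη] at hr
  rw [div_le_iff₀ (by positivity)]
  nlinarith

end Pool.Agent.V8H25.RP
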